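import Mathlib

namespace Pool.Agent.Results.MP_c4d24c_al.NotACCP

/-- The principal left ideal `H x`. -/
def leftI {H : Type} [Monoid H] (x : H) : Set H := {y | ∃ h, y = h * x}
/-- The principal right ideal `x H`. -/
def rightI {H : Type} [Monoid H] (x : H) : Set H := {y | ∃ h, y = x * h}
/-- The principal two-sided ideal `H x H`. -/
def twoI {H : Type} [Monoid H] (x : H) : Set H := {y | ∃ h k, y = h * x * k}

/-- Every ascending chain `I (x 0) ⊆ I (x 1) ⊆ ⋯` is eventually constant. -/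
def ACC {H : Type} (I : H → Set H) : Prop :=
  ∀ x : ℕ → H, (∀ n, I (x n) ⊆ I (x (n + 1))) → ∃ N, ∀ n, N ≤ n → I (x n) = I (x N)

lemma acc_of_rank {H : Type} (I : H → Set H) (ρ : H → ℕ ×ₗ ℕ)
    (h : ∀ x y, I x ⊆ I y → I y ⊆ I x ∨ ρ y < ρ x) : ACC I := by
  intro x hx
  obtain ⟨_, ⟨N, rfl⟩, hN⟩ := (wellFounded_lt (α := ℕ ×ₗ ℕ)).has_min (Set.range fun n => ρ (x n))
    (Set.range_nonempty _)
  refine ⟨N, fun n hn => ?_⟩
  have m : I (x N) ⊆ I (x n) := monotone_nat_of_le_succ (f := fun n => I (x n)) hx hn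
  rcases h _ _ m with h1 | h1
  · exact h1.antisymm m
  · exact absurd h1 (hN _ ⟨n, rfl⟩)

inductive M
  | g (s t u v : ℕ)
  | x (m i j : ℕ)
  | z

def mul : M → M → M
  | .g s t u v, .g s' t' u' v' => .g (s' + (s - t')) (t + (t' - s)) (u + (u' - v)) (v' + (v - u'))
  | .g s t _ _, .x m i j => .x (m - (s - i)) (m + i - s + t - (m - (s - i))) (m + j - (m - (s - i)))
  | .x m i j, .g _ _ u v => .x (m - (u - j)) (m + i - (m - (u - j))) (m + j - u + v - (m - (u - j)))
  | _, _ => .z

instance : Monoid M where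
  mul := mul
  one := .g 0 0 0 0
  mul_assoc a b c := by
    change mul (mul a b) c = mul a (mul b c)
    cases a <;> cases b <;> cases c <;> simp only [mul, M.g.injEq, M.x.injEq] <;> omega
  one_mul a := by
    change mul (.g 0 0 0 0) a = a
    cases a <;> simp only [mul, M.g.injEq, M.x.injEq] <;> omega
  mul_one a := by
    change mul a (.g 0 0 0 0) = a
    cases a <;> simp only [mul, M.g.injEq, M.x.injEq] <;> omega

lemma mul_def (a b : M) : a * b = mul a b := rfl

def rL : M → ℕ ×ₗ ℕ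
  | .g s _ _ v => toLex (0, s + v)
  | .x _ _ j => toLex (1, j)
  | .z => toLex (2, 0)

def rR : M → ℕ ×ₗ ℕ
  | .g _ t u _ => toLex (0, t + u)
  | .x _ i _ => toLex (1, i)
  | .z => toLex (2, 0)

lemma subL {H : Type} [Monoid H] {a b : H} (h : H) (e : a = h * b) : leftI a ⊆ leftI b := by
  rintro _ ⟨k, rfl⟩; exact ⟨k * h, by rw [e, mul_assoc]⟩

lemma subR {H : Type} [Monoid H] {a b : H} (h : H) (e : a = b * h) : rightI a ⊆ rightI b := by
  rintro _ ⟨k, rfl⟩; exact ⟨h * k, by rw [e, mul_assoc]⟩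

lemma accL : ACC (leftI (H := M)) := by
  refine acc_of_rank _ rL fun a b h => ?_
  obtain ⟨c, rfl⟩ := h (show a ∈ leftI a from ⟨1, (one_mul a).symm⟩)
  rcases b with ⟨s', t', u', v'⟩ | ⟨m, i, j⟩ | _
  · rcases c with ⟨s, t, u, v⟩ | ⟨m, i, j⟩ | _
    · by_cases e : s ≤ t' ∧ v ≤ u'
      · left
        refine subL (.g (t + (t' - s)) t' u' (u + (u' - v))) ?_
        simp only [mul_def, mul, M.g.injEq]; omega
      · right; simp only [mul_def, mul, rL, Prod.Lex.toLex_lt_toLex, true_and, lt_self_iff_false,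
          false_or]; omega
    · right; simp [mul_def, mul, rL, Prod.Lex.toLex_lt_toLex]
    · right; simp [mul_def, mul, rL, Prod.Lex.toLex_lt_toLex]
  · rcases c with ⟨s, t, u, v⟩ | ⟨m', i', j'⟩ | _
    · by_cases e : m - (s - i) = m
      · left
        refine subL (.g (m + i - s + t - m) i 0 0) ?_
        simp only [mul_def, mul, M.x.injEq]; omega
      · right; simp only [mul_def, mul, rL, Prod.Lex.toLex_lt_toLex, true_and, lt_self_iff_false,
          false_or]; omega
    · right; simp [mul_def, mul, rL, Prod.Lex.toLex_lt_toLex]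
    · right; simp [mul_def, mul, rL, Prod.Lex.toLex_lt_toLex]
  · left; refine subL 1 ?_
    rw [one_mul]; cases c <;> rfl

lemma accR : ACC (rightI (H := M)) := by
  refine acc_of_rank _ rR fun a b h => ?_
  obtain ⟨c, rfl⟩ := h (show a ∈ rightI a from ⟨1, (mul_one a).symm⟩)
  rcases b with ⟨s, t, u, v⟩ | ⟨m, i, j⟩ | _
  · rcases c with ⟨s', t', u', v'⟩ | ⟨m, i, j⟩ | _
    · by_cases e : t' ≤ s ∧ u' ≤ v
      · left
        refine subR (.g s (s' + (s - t')) (v' + (v - u')) v) ?_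
        simp only [mul_def, mul, M.g.injEq]; omega
      · right; simp only [mul_def, mul, rR, Prod.Lex.toLex_lt_toLex, true_and, lt_self_iff_false,
          false_or]; omega
    · right; simp [mul_def, mul, rR, Prod.Lex.toLex_lt_toLex]
    · right; simp [mul_def, mul, rR, Prod.Lex.toLex_lt_toLex]
  · rcases c with ⟨s, t, u, v⟩ | ⟨m', i', j'⟩ | _
    · by_cases e : m - (u - j) = m
      · left
        refine subR (.g 0 0 (m + j - u + v - m) j) ?_
        simp only [mul_def, mul, M.x.injEq]; omega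
      · right; simp only [mul_def, mul, rR, Prod.Lex.toLex_lt_toLex, true_and, lt_self_iff_false,
          false_or]; omega
    · right; simp [mul_def, mul, rR, Prod.Lex.toLex_lt_toLex]
    · right; simp [mul_def, mul, rR, Prod.Lex.toLex_lt_toLex]
  · left; refine subR 1 ?_
    rw [mul_one]; cases c <;> rfl

theorem result : ∃ (H : Type) (_ : Monoid H), ACC (leftI (H := H)) ∧ ACC (rightI (H := H)) ∧
    ∃ x : ℕ → H, ∀ n, twoI (x n) ⊂ twoI (x (n + 1)) := by
  refine ⟨M, inferInstance, accL, accR, fun n => .x n 0 0, fun n => ⟨?_, fun h => ?_⟩⟩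
  · rintro _ ⟨h, k, rfl⟩
    refine ⟨h * .g 1 0 0 0, .g 0 0 1 0 * k, ?_⟩
    have : M.x n 0 0 = .g 1 0 0 0 * .x (n + 1) 0 0 * .g 0 0 1 0 := by
      simp only [mul_def, mul, M.x.injEq]; omega
    beta_reduce
    rw [this]; simp only [mul_assoc]
  · obtain ⟨a, b, e⟩ := h (show M.x (n + 1) 0 0 ∈ twoI _ from ⟨1, 1, by simp⟩)
    cases a <;> cases b <;> simp only [mul_def, mul, M.x.injEq, reduceCtorEq] at e
    omega

end Pool.Agent.Results.MP_c4d24c_al.NotACCP
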